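import Mathlib
import Pool.Agent.N70.ES.VocWD

/-!
# Infinite fibre products of alternating fibre powers over Hilbertian fields

`K` is any Hilbertian field of characteristic `0` (the hypothesis is that of the frozen statement
S03429), `F₁/K` any finite Galois extension, `Γ = Gal(F₁/K)`. The definitions are in the files
`Pool/Agent/N70/EP/Voc.lean`, `Pool/Agent/N70/EP/VocI.lean` and `Pool/Agent/N70/EO/VocE.lean`:

* For a homomorphism `α : B → Γ` and a character `χ : Γ → {1, -1}`, `TwPow α χ n` is the group of all
  `(x, ρ)` with `x` in the wreath product `B ≀ S_n`, `ρ` in `Γ`, such that `α` maps all coordinates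
  of `x` to `ρ` and the sign of the permutation of `x` is `χ ρ`; `twPr α χ n (x, ρ) = ρ`. The kernel
  of `twPr α χ n` is `(ker α) ≀ A_n`.
* `TwWeak α χ n`: the embedding problem `twPr α χ n` has a weak solution over `K`.
* `IsIndex α I`: `I` is the greatest common divisor of the degrees of the finite extensions of `K`
  over which `α` has a weak solution (`I = 1` if `α` splits).
* `AlmostAllNumbers A`: the number of the `n < x` without the property `A` is `o(x)`.
* `InfTwProper α χ n`: the embedding problem over `K` given by `F₁` and the projection to `Γ` of the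
  fibre product over `Γ` of the groups `TwPow (α i) (χ i) (n i)` has a proper solution.

The theorem: for every countable family of surjective homomorphisms `α i : B i → Γ` of finite groups
(split or not, with any kernels) there are sets `A i` of natural numbers, each containing almost all
natural numbers, such that for all `n i` in `A i` and all characters `χ i` the fibre product has a
proper solution if and only if all factors have weak solutions. The kernel of this embedding problem
is the product of the groups `(ker (α i)) ≀ A_(n i)`. Let `I i` be the index of `α i`. For large `n`,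
`twPr (α i) χ n` has a weak solution for all `χ` if `I i` is odd and divides `n`, and for `χ = 1` if
`2 I i` divides `n`; it has one only if `I i` divides `n`.
-/

set_option autoImplicit false

open Pool.Agent.N70.EP.Voc
open Pool.Agent.N70.EO.Voc (AlmostAllNumbers)

namespace Pool.Agent.Results.MP_e9d732_al.AlternatingFibreProducts

/-- Hilbertian fields, with the words of the frozen statement `S03429`. -/
def Hilbertian (K : Type) [Field K] : Prop :=
  ∀ (f : Polynomial (Polynomial K)), f.Monic → Irreducible f →
    (f.map (algebraMap (Polynomial K) (FractionRing (Polynomial K)))).Separable →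
    ∀ g : Polynomial K, g ≠ 0 →
      ∃ a : K, g.eval a ≠ 0 ∧ Irreducible (f.map (Polynomial.evalRingHom a))

end Pool.Agent.Results.MP_e9d732_al.AlternatingFibreProducts

open Pool.Agent.Results.MP_e9d732_al.AlternatingFibreProducts in
theorem Pool.Agent.Results.MP_e9d732_al.AlternatingFibreProducts.result :
    ∀ (K : Type) [Field K] [CharZero K], Hilbertian K →
      ∀ (F₁ : Type) [Field F₁] [Algebra K F₁] [FiniteDimensional K F₁] [IsGalois K F₁]
        (J : Type) [Countable J] (B : J → Type) [∀ i, Group (B i)] [∀ i, Finite (B i)]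
        (α : ∀ i, B i →* (F₁ ≃ₐ[K] F₁)),
        (∀ i, Function.Surjective (α i)) →
        (∃ A : J → Set ℕ, (∀ i, AlmostAllNumbers (fun n => n ∈ A i)) ∧
          ∀ (n : J → ℕ) (χ : J → ((F₁ ≃ₐ[K] F₁) →* ℤˣ)), (∀ i, n i ∈ A i) →
            (InfTwProper α χ n ↔ ∀ i, TwWeak (α i) (χ i) (n i))) ∧
        ∀ i, ∃ I : ℕ, IsIndex (α i) I ∧
          (∀ (χ : (F₁ ≃ₐ[K] F₁) →* ℤˣ) (n : ℕ), TwWeak (α i) χ n → I ∣ n) ∧
          ∃ n₀ : ℕ, ∀ n ≥ n₀,
            (Odd I → I ∣ n → ∀ χ : (F₁ ≃ₐ[K] F₁) →* ℤˣ, TwWeak (α i) χ n) ∧
            (2 * I ∣ n → TwWeak (α i) 1 n) := by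
  intro K _ _ hK F₁ _ _ _ _ J _ B _ _ α hα
  refine ⟨⟨fun i => {n | ∀ χ : (F₁ ≃ₐ[K] F₁) →* ℤˣ, TwRegular (α i) χ n ↔ TwWeak (α i) χ n},
    fun i => Pool.Agent.N70.ES.voc_dens9 K F₁ (α i) (hα i), fun n χ hn => ?_⟩,
    fun i => Pool.Agent.N70.ES.voc_index9 K F₁ (α i) (hα i)⟩
  exact Pool.Agent.N70.ES.infTw_iff hK α χ n fun i => hn i (χ i)
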