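import Mathlib
import Pool.Agent.N70.ET.VocXB
import Pool.Agent.N70.EP.RealB
import Pool.Prelude.Def_F_b1b78ff3

/-!
# Kernels of solvable embedding problems over Hilbertian fields: `G ≀ A_n` and `G ≀ S_n`

The definitions are in the files `Pool/Agent/N70/EP/Voc.lean`, `Pool/Agent/N70/EP/VocC.lean`,
`Pool/Agent/N70/EQ/VocK.lean` and `Pool/Agent/N70/EO/VocE.lean`:

* `AltWreath G n` is the wreath product `G ≀ A_n`, `Wreath G n` is `G ≀ S_n`.
* `Centreless G`: `G` is a nontrivial finite group with trivial centre.
* `OuterIndex G D`: `D` is the greatest common divisor of the indices of the subgroups of `Aut G`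
  containing `Inn G` in which `Inn G` has a complement (`D = 1` if `Inn G` has a complement in `Aut G`;
  `D` divides the order of `Out G`).
* `AlmostAllNumbers A`: the number of the `n < x` without the property `A` is `o(x)`.
* `Large A S`: for every `G` with `Centreless G` and `OuterIndex G D` the set `S G` contains all large
  multiples of `D`, and `A G` contains almost all multiples of `D` if `D` is odd.
* `KerClass A S` is the smallest class of groups which contains, for all `G` with `Centreless G`, the
  groups `G ≀ A_n` for all `n` in `A G` and the groups `G ≀ S_n` for all `n` in `S G`, and the complete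
  groups which are regular Galois groups over `ℚ(t)`, and which is closed under finite direct
  products, direct factors, characteristic extensions and `T ↦ T ≀ S_n` (`n ≥ 2 (|T| + 2)`).
* `ProperSolution α`: the embedding problem `α : X → Gal(F₁/K)` has a proper solution, in the words
  of the frozen statement S03429; `ProperTower p e₀`: the same for the projection of the inverse
  limit of a sequence `Gal(F₁/K) = W 0 ← W 1 ← W 2 ← ...`.
* `IsRealizable K X`: `X` is a Galois group over `K`.

* `WeakSolutionOver α K`: the embedding problem `α` has a weak solution over `K`.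

The theorem: there are sets `A G`, `S G` of natural numbers with `Large A S` such that over every
Hilbertian field `K` of characteristic `0` EVERY embedding problem, split or not, whose kernel is in
the class `KerClass A S`, has a proper solution; the same holds for all sequences of embedding
problems with kernels in the class; and if `N` is a normal subgroup of `X` in the class, `X / N`
finite, then `X` is a Galois group over `K` if and only if `X / N` is. Moreover, for every `F₁/K`,
every finite group `G` such that the orders of its abelianization and of its centre are coprime (for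
example, every perfect group and every group with trivial centre) and almost all `n`, an embedding
problem for `F₁/K` with kernel `G ≀ A_n` has a proper solution if and only if it has a weak solution
(so all split embedding problems have one).
-/

set_option autoImplicit false

open Pool.Agent.N70.EP.Voc Pool.Agent.N70.EO.Voc Nfff32c05
open Pool.Agent.N70.EQ.Voc (KerClass)

namespace Pool.Agent.Results.MP_e9d732_al.AlternatingKernels

/-- Hilbertian fields, with the words of the frozen statement `S03429`. -/
def Hilbertian (K : Type) [Field K] : Prop :=
  ∀ (f : Polynomial (Polynomial K)), f.Monic → Irreducible f →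
    (f.map (algebraMap (Polynomial K) (FractionRing (Polynomial K)))).Separable →
    ∀ g : Polynomial K, g ≠ 0 →
      ∃ a : K, g.eval a ≠ 0 ∧ Irreducible (f.map (Polynomial.evalRingHom a))

end Pool.Agent.Results.MP_e9d732_al.AlternatingKernels

open Pool.Agent.Results.MP_e9d732_al.AlternatingKernels in
theorem Pool.Agent.Results.MP_e9d732_al.AlternatingKernels.result :
    ∃ A S : (∀ (G : Type) [Group G], Set ℕ), Large A S ∧
      ∀ (K : Type) [Field K] [CharZero K], Hilbertian K →
        (∀ (F₁ : Type) [Field F₁] [Algebra K F₁] [FiniteDimensional K F₁] [IsGalois K F₁],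
          (∀ (X : Type) [Group X] (α : X →* (F₁ ≃ₐ[K] F₁)), Function.Surjective α →
            KerClass A S α.ker → ProperSolution α) ∧
          (∀ (W : ℕ → Type) [∀ i, Group (W i)] (p : ∀ i, W (i + 1) →* W i)
            (e₀ : W 0 ≃* (F₁ ≃ₐ[K] F₁)),
            (∀ i, Function.Surjective (p i) ∧ KerClass A S (p i).ker) → ProperTower p e₀) ∧
          ∀ (G : Type) [Group G] [Finite G],
            Nat.Coprime (Nat.card (Abelianization G)) (Nat.card (Subgroup.center G)) →
            AlmostAllNumbers (fun n =>
              ∀ (X : Type) [Group X] (α : X →* (F₁ ≃ₐ[K] F₁)), Function.Surjective α →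
                Nonempty (α.ker ≃* AltWreath G n) →
                  (ProperSolution α ↔ WeakSolutionOver α K))) ∧
        ∀ (X : Type) [Group X] (N : Subgroup X) [N.Normal], KerClass A S N → Finite (X ⧸ N) →
          (IsRealizable K X ↔ IsRealizable K (X ⧸ N)) := by
  refine ⟨fun G _ => Pool.Agent.N70.EP.setA G, fun G _ => Pool.Agent.N70.EQ.setS G,
    Pool.Agent.N70.EO.large8, ?_⟩
  intro K _ _ hK
  have hmain := Pool.Agent.N70.EQ.kernel_main7 (fun G _ => Pool.Agent.N70.EP.setA G)
    (fun G _ => Pool.Agent.N70.EQ.setS G) (fun _ _ _ h => h) (fun _ _ _ h => h)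
  refine ⟨fun F₁ _ _ _ _ => ⟨fun X _ α hα hT => ?_, fun W _ p e₀ hp => ?_,
      fun G _ _ hG => ?_⟩,
    fun X _ N _ hN hfin => ?_⟩
  · have h1 := (hmain _ hT).1
    have hX : Finite X := Pool.Agent.TH59.WX.finite_of_kernel α (MulEquiv.refl _)
    exact Pool.Agent.TH59.WX.hil_of_reg K F₁ X hK α
      ((hmain _ hT).2.2 K F₁ X α hα ⟨MulEquiv.refl _⟩)
  · exact Pool.Agent.N70.EP.properTower_of hK (fun T _ => KerClass (fun G _ =>
      Pool.Agent.N70.EP.setA G) (fun G _ => Pool.Agent.N70.EQ.setS G) T)
      (fun T _ hT => ⟨(hmain T hT).1, (hmain T hT).2.2⟩) p hp e₀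
  · exact Pool.Agent.N70.ET.voc_kerhZ K F₁ hK G hG
  · have h1 := (hmain _ hN).1
    have hX : Finite X := Finite.of_subgroup_quotient N
    exact Pool.Agent.N70.EP.real_rsk_iff (QuotientGroup.mk' N) (QuotientGroup.mk'_surjective N)
      (Pool.Agent.N70.EP.rsk_normal (hmain _ hN).2.2 X N ⟨MulEquiv.refl _⟩) K hK
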