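import Mathlib
import Pool.Agent.N600.ZQ.T8

/-!
# Embedding problems with kernel `∏ G_i ≀ S_{n_i}`: reduction to nilpotent kernels, and fields of
cohomological dimension at most one

Let `G_i` be finitely many ARBITRARY nontrivial finite groups with trivial centre and let
`n_i ≥ ((3 |G_i| + 2)!)^3`.  Let `K` be any field and `α : X → Gal(L/K)` any embedding problem over
`K` (split or not) whose kernel is isomorphic to the direct product of the wreath products
`G_i ≀ S_{n_i}`.

1. There is a finite embedding problem `π : Q → Gal(L/K)` whose kernel is contained in the Frattini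
   subgroup of `Q` (so it is nilpotent) and has order divisible only by primes which divide one of
   the `|G_i|`, such that `α` has a regular solution over `K(t)`, and a proper solution over `K` if
   `K` is Hilbertian, as soon as `π` has a WEAK solution over `K`.
2. So, if `K` is a Hilbertian field such that `cd_p(Gal(K)) ≤ 1` for all primes `p` which divide one
   of the `|G_i|` (for example the maximal abelian extension of the rationals), then ALL embedding
   problems over `K` with such a kernel have a proper solution.
-/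

set_option autoImplicit false

open Pool.Agent.H391R2 (Wr)
open Pool.Agent.H391R2.T4 (HilbField RegSol WeakSol)
open Pool.Agent.N600.UK (ProperSol)

namespace Pool.Agent.Results.MP_e9d732_al.NilpotentReduction

/-- Every finite embedding problem over `K` with a nilpotent kernel whose order is divisible only by
primes which divide one of the `|G i|` has a weak solution: `cd_p(Gal(K)) ≤ 1` for all these
primes. -/
def WeakNilpotent (K : Type) [Field K] {I : Type} (G : I → Type) : Prop :=
  ∀ (L Q : Type) [Field L] [Algebra K L] [FiniteDimensional K L] [IsGalois K L] [Group Q]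
    [Finite Q] (π : Q →* (L ≃ₐ[K] L)), Function.Surjective π → Group.IsNilpotent π.ker →
    (∀ p : ℕ, p.Prime → p ∣ Nat.card π.ker → ∃ i, p ∣ Nat.card (G i)) → WeakSol K L Q π

/-- `α` has a regular solution, and a proper solution if `K` is Hilbertian. -/
def Solved (K L X : Type) [Field K] [Field L] [Algebra K L] [Normal K L] [Group X]
    (α : X →* (L ≃ₐ[K] L)) : Prop :=
  RegSol K L X α ∧ (HilbField K → ProperSol K L X α)

/-- The reduction of `α` to a problem `π` with a nilpotent Frattini kernel. -/
def Reduction (K L X : Type) [Field K] [Field L] [Algebra K L] [Normal K L] [Group X]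
    (α : X →* (L ≃ₐ[K] L)) {I : Type} (G : I → Type) : Prop :=
  ∃ (Q : Type) (_ : Group Q) (_ : Finite Q) (π : Q →* (L ≃ₐ[K] L)), Function.Surjective π ∧
    π.ker ≤ frattini Q ∧ Group.IsNilpotent π.ker ∧
    (∀ p : ℕ, p.Prime → p ∣ Nat.card π.ker → ∃ i, p ∣ Nat.card (G i)) ∧
    (WeakSol K L Q π → Solved K L X α)

end Pool.Agent.Results.MP_e9d732_al.NilpotentReduction

open Pool.Agent.Results.MP_e9d732_al.NilpotentReduction in
theorem Pool.Agent.Results.MP_e9d732_al.NilpotentReduction.result :
    ∀ (I : Type) [Finite I] (G : I → Type) [∀ i, Group (G i)] [∀ i, Finite (G i)]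
      [∀ i, Nontrivial (G i)] (n : I → ℕ), (∀ i, Subgroup.center (G i) = ⊥) →
      (∀ i, ((3 * Nat.card (G i) + 2).factorial) ^ 3 ≤ n i) →
      ∀ (K : Type) [Field K],
        (∀ (L X : Type) [Field L] [Algebra K L] [FiniteDimensional K L] [IsGalois K L] [Group X]
          (α : X →* (L ≃ₐ[K] L)), Function.Surjective α →
          Nonempty (α.ker ≃* ∀ i, Wr (G i) (n i)) → Reduction K L X α G) ∧
        (WeakNilpotent K G → ∀ (L X : Type) [Field L] [Algebra K L] [FiniteDimensional K L]
          [IsGalois K L] [Group X] (α : X →* (L ≃ₐ[K] L)), Function.Surjective α →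
          Nonempty (α.ker ≃* ∀ i, Wr (G i) (n i)) → Solved K L X α) := by
  intro I _ G _ _ _ n hZ hn K _
  have main : ∀ (L X : Type) [Field L] [Algebra K L] [FiniteDimensional K L] [IsGalois K L]
      [Group X] (α : X →* (L ≃ₐ[K] L)), Function.Surjective α →
      Nonempty (α.ker ≃* ∀ i, Wr (G i) (n i)) → Reduction K L X α G := by
    intro L X _ _ _ _ _ α hα hN
    obtain ⟨Q, i1, i2, π, hπ, hp, hw⟩ := Pool.Agent.N600.ZQ.nil_main hZ hn K L X α hα hN
    refine ⟨Q, i1, i2, π, hπ.1, hπ.2, hπ.ker_nilpotent, hp, fun h => ⟨hw h, fun hK => ?_⟩⟩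
    have hfinT : ∀ i, Finite (Wr (G i) (n i)) := fun i =>
      Pool.Agent.H391R2.T4.finite_wr (G i) (n i)
    have hfinX : Finite X := Pool.Agent.TH59.WX.finite_of_kernel α hN.some.symm
    exact Pool.Agent.TH59.WX.hil_of_reg K L X hK α (hw h)
  refine ⟨main, fun hK L X _ _ _ _ _ α hα hN => ?_⟩
  obtain ⟨Q, i1, i2, π, hπ, hπ2, hπ3, hp, hw⟩ := main L X α hα hN
  exact hw (hK L Q π hπ hπ3 hp)
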