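import Mathlib
import Pool.Agent.N70.ES.VocWB

/-!
# Towers with alternating fibre powers over Hilbertian fields, uniformly in the field

The definitions are in the files `Voc.lean`, `VocC.lean` of `Pool/Agent/N70/EP`, `VocK.lean` of
`Pool/Agent/N70/EQ`, `VocE.lean` of `Pool/Agent/N70/EO` and `VocW.lean` of `Pool/Agent/N70/ES`:

* For a homomorphism `α : B → W` and a character `χ : W → {1, -1}`, `TwPow α χ n` is the group of all
  `(x, ρ)` with `x` in the wreath product `B ≀ S_n`, `ρ` in `W`, such that `α` maps all coordinates
  of `x` to `ρ` and the sign of the permutation of `x` is `χ ρ`; `twPr α χ n (x, ρ) = ρ`. The kernel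
  of `twPr α χ n` is `(ker α) ≀ A_n`.
* `IsSplittingIndex α I`: `I` is the greatest common divisor of the indices of the subgroups of `W`
  over which `α` splits.
* `AlmostAllNumbers A`: the number of the `n < x` without the property `A` is `o(x)`.
* `TwSplit α χ n`: the projection `twPr α χ n` splits; `TwGood α I n χ`: this is so, or `I` is odd and
  divides `n`, or `χ = 1` and `2 I` divides `n`.
* `LargeHom A₁`: if `α : B → W` is a surjective homomorphism of finite groups, with any kernel, of
  index `I`, then for almost all `n` the set `A₁ α χ` contains `n` for all characters `χ` such that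
  `twPr α χ n` splits, and for all `χ` if `I` is odd and divides `n`, and for `χ = 1` if `2 I`
  divides `n`.
* `Large A₂ S`: for every nontrivial finite group `G` with trivial centre and `OuterIndex G D` the set
  `S G` contains all large multiples of `D`, and `A₂ G` contains almost all multiples of `D` if `D`
  is odd.
* `KerClass A₂ S` is the smallest class of groups which contains, for all nontrivial finite groups `G`
  with trivial centre, the groups `G ≀ A_n` for all `n` in `A₂ G` and the groups `G ≀ S_n` for all `n`
  in `S G`, and the complete groups which are regular Galois groups over `ℚ(t)`, and which is closed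
  under finite direct products, direct factors, characteristic extensions and `T ↦ T ≀ S_n`
  (`n ≥ 2 (|T| + 2)`).
* `StepClass A₁ A₂ S` is the smallest class of homomorphisms which contains the class `Cls ℚ` of the
  starting results (for example all split epimorphisms with a finite abelian kernel), all
  `twPr α χ n` with `n` in `A₁ α χ`, and all epimorphisms with a kernel in the class
  `KerClass A₂ S`, and which is closed under composition and quotients.
* `ProperTower p e₀`: the embedding problem over `K` given by the Galois extension `F₁` and the
  projection of the inverse limit of a sequence `Gal(F₁/K) = W 0 ← W 1 ← W 2 ← ...` has a proper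
  solution.

The theorem: there are sets `A₁ α χ`, `A₂ G`, `S G` of natural numbers with `LargeHom A₁` and
`Large A₂ S`, which do not depend on any field, such that over EVERY Hilbertian field of
characteristic `0` all sequences of embedding problems in the class `StepClass A₁ A₂ S` have proper
solutions.
-/

set_option autoImplicit false

open Pool.Agent.N70.EP.Voc
open Pool.Agent.N70.EO.Voc (AlmostAllNumbers Large StepClass)
open Pool.Agent.N70.ES.Voc

namespace Pool.Agent.Results.MP_e9d732_al.UniformAlternatingTowers

/-- Hilbertian fields, with the words of the frozen statement `S03429`. -/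
def Hilbertian (K : Type) [Field K] : Prop :=
  ∀ (f : Polynomial (Polynomial K)), f.Monic → Irreducible f →
    (f.map (algebraMap (Polynomial K) (FractionRing (Polynomial K)))).Separable →
    ∀ g : Polynomial K, g ≠ 0 →
      ∃ a : K, g.eval a ≠ 0 ∧ Irreducible (f.map (Polynomial.evalRingHom a))

end Pool.Agent.Results.MP_e9d732_al.UniformAlternatingTowers

open Pool.Agent.Results.MP_e9d732_al.UniformAlternatingTowers in
theorem Pool.Agent.Results.MP_e9d732_al.UniformAlternatingTowers.result :
    ∃ (A₁ : ∀ (W B : Type) [Group W] [Group B], (B →* W) → (W →* ℤˣ) → Set ℕ)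
      (A₂ S : ∀ (G : Type) [Group G], Set ℕ), LargeHom A₁ ∧ Large A₂ S ∧
      ∀ (K : Type) [Field K] [CharZero K], Hilbertian K →
        ∀ (F₁ : Type) [Field F₁] [Algebra K F₁] [FiniteDimensional K F₁] [IsGalois K F₁]
          (W : ℕ → Type) [∀ i, Group (W i)] (p : ∀ i, W (i + 1) →* W i)
          (e₀ : W 0 ≃* (F₁ ≃ₐ[K] F₁)), (∀ i, StepClass A₁ A₂ S (p i)) → ProperTower p e₀ := by
  refine ⟨fun _ _ _ _ α χ => Pool.Agent.N70.EO.setC α χ, fun G _ => Pool.Agent.N70.EP.setA G,
    fun G _ => Pool.Agent.N70.EQ.setS G, Pool.Agent.N70.ES.largeHom9,
    Pool.Agent.N70.EO.large8, ?_⟩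
  intro K _ _ hK F₁ _ _ _ _ W _ p e₀ hp
  exact Pool.Agent.N70.EP.step_proper hK p (fun i => Pool.Agent.N70.EO.step_main8 _ _ _
    (fun _ _ _ _ _ _ _ h => h) (fun _ _ _ h => h) (fun _ _ _ h => h) (hp i)) e₀
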